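import Pool.Agent.TH744.Sm.Lat

/-! The non-compact case: the sentence fails in the lattice of `Π⁰₁` classes containing `0^ω`. -/

set_option autoImplicit false

namespace Pool.Agent.TH744.Sm

open Pool.Agent.Helper446 Pool.Agent.TH744.Gas

/-- the zero sequence -/
def zer : ℕ → Bool := fun _ => false

/-- the string `0^n 1` -/
def zs (n : ℕ) : List Bool := sg zer n ++ [true]

/-- the point `0^n 1 y` -/
def pt (n : ℕ) (y : ℕ → Bool) : ℕ → Bool := fun i => if i < n then false else
  if i = n then true else y (i - (n + 1))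

/-- the string of length `s` given by the binary digits of `c` -/
def bits (c s : ℕ) : List Bool := sg (fun i => c.testBit i) s

theorem zs_length (n : ℕ) : (zs n).length = n + 1 := by simp [zs, sg_length]

theorem csg0 {α : Type} [Primcodable α] {f : α → ℕ} (hf : Computable f) :
    Computable fun a => sg zer (f a) := by
  have : Primrec fun n : ℕ => (List.range n).map (fun _ => false) :=
    Primrec.list_map Primrec.list_range (Primrec.const false).to₂
  exact this.to_comp.comp hf

theorem czs {α : Type} [Primcodable α] {f : α → ℕ} (hf : Computable f) :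
    Computable fun a => zs (f a) := RE.cappend (csg0 hf) (Computable.const [true])

theorem testBit_prim : Primrec₂ fun c i : ℕ => c.testBit i := by
  have h1 : Primrec fun p : ℕ × ℕ => p.1 / 2 ^ p.2 % 2 == 1 := by
    have hp : Primrec fun p : ℕ × ℕ => 2 ^ p.2 := by
      have h0 : Primrec₂ (fun a b : ℕ => a ^ b) := by
        exact Primrec₂.unpaired'.1 Nat.Primrec.pow
      exact h0.comp (Primrec.const 2) Primrec.snd
    have hd : Primrec fun p : ℕ × ℕ => p.1 / 2 ^ p.2 := Primrec.nat_div.comp Primrec.fst hp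
    exact Primrec.beq.comp (Primrec.nat_mod.comp hd (Primrec.const 2)) (Primrec.const 1)
  refine Primrec.of_eq h1 fun a => ?_
  change (a.1 / 2 ^ a.2 % 2 == 1) = a.1.testBit a.2
  rw [Nat.testBit_eq_decide_div_mod_eq]
  rcases Nat.mod_two_eq_zero_or_one (a.1 / 2 ^ a.2) with h | h <;> simp [h]

theorem cbits {α : Type} [Primcodable α] {f g : α → ℕ} (hf : Computable f) (hg : Computable g) :
    Computable fun a => bits (f a) (g a) := by
  have : Primrec fun p : ℕ × ℕ => (List.range p.2).map (fun i => p.1.testBit i) :=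
    Primrec.list_map (Primrec.list_range.comp Primrec.snd)
      (testBit_prim.comp (Primrec.fst.comp Primrec.fst) Primrec.snd).to₂
  exact this.to_comp.comp (hf.pair hg)

theorem sg_eq_zs {x : ℕ → Bool} {n : ℕ} : sg x (n + 1) = zs n ↔
    (∀ i < n, x i = false) ∧ x n = true := by
  have h1 : sg x (n + 1) = sg x n ++ [x n] := by simp [sg, List.range_succ]
  rw [h1, zs]
  constructor
  · intro h
    have h2 := List.append_inj h (by rw [sg_length, sg_length])
    refine ⟨fun i hi => ?_, by simpa using h2.2⟩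
    exact sg_inj h2.1 hi
  · rintro ⟨h2, h3⟩
    rw [h3, sg_congr (y := zer) h2]

theorem zs_unique {x : ℕ → Bool} {n m : ℕ} (h1 : sg x (n + 1) = zs n)
    (h2 : sg x (m + 1) = zs m) : n = m := by
  rw [sg_eq_zs] at h1 h2
  rcases lt_trichotomy n m with h | h | h
  · have := h2.1 n h; rw [h1.2] at this; exact absurd this (by simp)
  · exact h
  · have := h1.1 m h; rw [h2.2] at this; exact absurd this (by simp)

theorem exists_zs {x : ℕ → Bool} (h : x ≠ zer) : ∃ n, sg x (n + 1) = zs n := by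
  classical
  have hex : ∃ n, x n = true := by
    by_contra hcon
    push Not at hcon
    exact h (funext fun n => by
      have h1 := hcon n
      simp only [ne_eq, Bool.not_eq_true] at h1
      exact h1)
  refine ⟨Nat.find hex, sg_eq_zs.2 ⟨fun i hi => ?_, Nat.find_spec hex⟩⟩
  simpa using Nat.find_min hex hi

theorem ne_zer {x : ℕ → Bool} {n : ℕ} (h : sg x (n + 1) = zs n) : x ≠ zer := by
  rintro rfl
  have := (sg_eq_zs.1 h).2
  exact absurd this (by simp [zer])

theorem sg_pt (n : ℕ) (y : ℕ → Bool) : sg (pt n y) (n + 1) = zs n :=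
  sg_eq_zs.2 ⟨fun i hi => by simp [pt, hi], by simp [pt]⟩

theorem sg_pt' (n k : ℕ) (y : ℕ → Bool) : sg (pt n y) (n + 1 + k) = zs n ++ sg y k := by
  have h1 : sg (pt n y) (n + 1 + k) = sg (pt n y) (n + 1) ++
      (List.range k).map (fun i => pt n y (n + 1 + i)) := by
    unfold sg
    rw [List.range_add, List.map_append, List.map_map]
    rfl
  rw [h1, sg_pt]
  congr 1
  unfold sg
  apply List.map_congr_left
  intro i _
  simp [pt, show ¬ (n + 1 + i < n) by omega, show ¬ (n + 1 + i = n) by omega]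

theorem eq_pt {x : ℕ → Bool} {n : ℕ} (h : sg x (n + 1) = zs n) :
    x = pt n (fun i => x (i + (n + 1))) := by
  rw [sg_eq_zs] at h
  funext i
  unfold pt
  split_ifs with h1 h2
  · exact h.1 i h1
  · rw [h2]; exact h.2
  · congr 1; omega

theorem exists_bits' (ρ : List Bool) : ∃ c < 2 ^ ρ.length, bits c ρ.length = ρ := by
  obtain ⟨m, hm⟩ := exists_bits (ext ρ) ρ.length
  refine ⟨m % 2 ^ ρ.length, Nat.mod_lt _ (by positivity), ?_⟩
  conv_rhs => rw [← sg_ext ρ]
  refine sg_congr fun i hi => ?_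
  rw [Nat.testBit_mod_two_pow, decide_eq_true hi, Bool.true_and, hm i hi]

/-- the first reduction: computable points in the pieces -/
theorem re_pt {W : List Bool → Prop} (hW : REPred W) :
    REPred fun n => ∃ k, W (sg (pt n zer) k) := by
  have h : REPred fun n : ℕ => ∃ k, ∃ j, W ((zs n ++ sg zer j).take k) := by
    refine RE.exN (p := fun n k => ∃ j, W ((zs n ++ sg zer j).take k)) (RE.exN
      (p := fun (z : ℕ × ℕ) j => W ((zs z.1 ++ sg zer j).take z.2)) (RE.comp hW
      (ctake (RE.cappend (czs (by fun_prop)) (csg0 (by fun_prop))) (by fun_prop))))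
  refine h.of_eq fun n => ?_
  constructor
  · rintro ⟨k, j, h⟩
    rw [← sg_pt' n j zer, sg_take'] at h
    exact ⟨_, h⟩
  · rintro ⟨k, h⟩
    refine ⟨k, k, ?_⟩
    rw [← sg_pt' n k zer, sg_take _ (by omega)]
    exact h

theorem re_ex {W : List Bool → Prop} (hW : REPred W) :
    REPred fun n => ∃ y, ∃ k, W (sg (pt n y) k) := by
  have h : REPred fun n : ℕ => ∃ k, ∃ ρ : List Bool, W ((zs n ++ ρ).take k) := by
    refine RE.exN (p := fun n k => ∃ ρ : List Bool, W ((zs n ++ ρ).take k)) (RE.ex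
      (p := fun (z : ℕ × ℕ) (ρ : List Bool) => W ((zs z.1 ++ ρ).take z.2)) (RE.comp hW
      (ctake (RE.cappend (czs (by fun_prop)) (by fun_prop)) (by fun_prop))))
  refine h.of_eq fun n => ?_
  constructor
  · rintro ⟨k, ρ, h⟩
    rw [← sg_ext ρ, ← sg_pt' n _ _, sg_take'] at h
    exact ⟨_, _, h⟩
  · rintro ⟨y, k, h⟩
    refine ⟨k, sg y k, ?_⟩
    rw [← sg_pt' n k y, sg_take _ (by omega)]
    exact h

theorem re_all {W : List Bool → Prop} (hW : REPred W) :
    REPred fun n => ∀ y, ∃ k, W (sg (pt n y) k) := by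
  have h : REPred fun n : ℕ => ∃ s, ∀ c < 2 ^ s, ∃ k, W ((zs n ++ bits c s).take k) := by
    have hpow : Computable fun z : ℕ × ℕ => 2 ^ z.2 := by
      have h0 : Primrec₂ (fun a b : ℕ => a ^ b) := Primrec₂.unpaired'.1 Nat.Primrec.pow
      exact h0.to_comp.comp (Computable.const 2) Computable.snd
    refine RE.exN (p := fun n s => ∀ c < 2 ^ s, ∃ k, W ((zs n ++ bits c s).take k)) (RE.all_lt
      (p := fun (z : ℕ × ℕ) c => ∃ k, W ((zs z.1 ++ bits c z.2).take k)) (RE.exN
      (p := fun (z : (ℕ × ℕ) × ℕ) k => W ((zs z.1.1 ++ bits z.2 z.1.2).take k)) (RE.comp hW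
      (ctake (RE.cappend (czs (by fun_prop)) (cbits (by fun_prop) (by fun_prop)))
      (by fun_prop)))) hpow)
  refine h.of_eq fun n => ?_
  constructor
  · rintro ⟨s, hs⟩ y
    obtain ⟨c, hc, hcb⟩ := exists_bits' (sg y s)
    rw [sg_length] at hc hcb
    obtain ⟨k, hk⟩ := hs c hc
    rw [hcb, ← sg_pt' n s y, sg_take'] at hk
    exact ⟨_, hk⟩
  · intro hall
    obtain ⟨N, hN⟩ := fan (fun ρ => ∃ k, W ((zs n ++ ρ).take k)) (by
      intro y
      obtain ⟨k, hk⟩ := hall y
      refine ⟨k, k, ?_⟩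
      rw [← sg_pt' n k y, sg_take _ (by omega)]
      exact hk)
    refine ⟨N, fun c _ => ?_⟩
    obtain ⟨m, hm, k, hk⟩ := hN (fun i => c.testBit i)
    rw [← sg_pt' n m, sg_take'] at hk
    refine ⟨min k (n + 1 + m), ?_⟩
    unfold bits
    rw [← sg_pt' n N, sg_take _ (by omega)]
    exact hk

/-- classes avoiding a c.e. set of pieces -/
theorem pi_avoid {D : ℕ → Prop} (hD : REPred D) :
    Pi {x | ¬ ∃ n, D n ∧ sg x (n + 1) = zs n} := by
  refine pi_iff.2 ⟨fun σ => ∃ n, D n ∧ σ = zs n, ?_, fun x => ?_⟩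
  · exact RE.exN (p := fun (σ : List Bool) n => D n ∧ σ = zs n) (RE.and (RE.comp hD
      (by fun_prop)) (RE.eq (by fun_prop) (czs (by fun_prop))))
  · simp only [Set.mem_ofPred_eq, not_not]
    constructor
    · rintro ⟨n, h1, h2⟩; exact ⟨n + 1, n, h1, h2⟩
    · rintro ⟨m, n, h1, h2⟩
      have : m = n + 1 := by rw [← sg_length x m, h2, zs_length]
      exact ⟨n, h1, this ▸ h2⟩

theorem pi_zer : Pi {zer} := by
  have := pi_avoid (D := fun _ => True) (RE.const True)
  convert this using 1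
  ext x
  simp only [Set.mem_singleton_iff, Set.mem_ofPred_eq, true_and]
  constructor
  · rintro rfl ⟨n, hn⟩; exact ne_zer hn rfl
  · intro hn
    by_contra hne
    exact hn (exists_zs hne)

theorem not_psi : ¬ Psi (SP {zer}) := by
  intro h
  have hA := pi_avoid re_A
  have hV := pi_avoid re_V
  have hzer : ∀ (D : ℕ → Prop), zer ∈ {x | ¬ ∃ n, D n ∧ sg x (n + 1) = zs n} := by
    rintro D ⟨n, _, hn⟩
    exact ne_zer hn rfl
  have hXY : {x | ¬ ∃ n, n ∈ A ∧ sg x (n + 1) = zs n} ⊆
      {x | ¬ ∃ n, n ∈ V ∧ sg x (n + 1) = zs n} := by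
    rintro x hx ⟨n, h1, h2⟩
    exact hx ⟨n, V_subset h1, h2⟩
  have hQ : Pi {zer} := pi_zer
  obtain ⟨⟨Z, hZp, hZ0⟩, ⟨Z', hZp', hZ0'⟩, h1, h2, h3, h4, h5⟩ := h
    ⟨_, hA, Set.singleton_subset_iff.2 (hzer _)⟩ ⟨_, hV, Set.singleton_subset_iff.2 (hzer _)⟩ hXY
    (by
      rintro ⟨⟨C, hCp, hC0⟩, ⟨⟨C', hCp', hC0'⟩, h1, h2⟩, h3, h4⟩
      have hinter : ∀ x, x ∈ C → x ∈ C' → x = zer := by
        intro x hx hx'
        have := h1 ⟨C ∩ C', pi_inter hCp hCp', Set.subset_inter hC0 hC0'⟩
          Set.inter_subset_left Set.inter_subset_right ⟨{zer}, hQ, subset_rfl⟩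
        exact this (a := x) ⟨hx, hx'⟩
      have hunion : ∀ x, x ∈ C ∨ x ∈ C' := by
        intro x
        have := h2 ⟨C ∪ C', pi_union hCp hCp', hC0.trans Set.subset_union_left⟩
          Set.subset_union_left Set.subset_union_right ⟨Set.univ, pi_univ, Set.subset_univ _⟩
        exact this (Set.mem_univ x)
      obtain ⟨W', hW', hW'2⟩ := pi_iff.1 hCp'
      have hre : REPred fun n => pt n zer ∈ C := by
        refine (re_pt hW').of_eq fun n => ?_
        rw [← hW'2]
        constructor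
        · intro h; exact (hunion _).resolve_right h
        · intro h h'
          exact ne_zer (sg_pt n zer) (hinter _ h h')
      obtain ⟨m, hm1, hm2⟩ := positive hre (fun m hm => by
        by_contra hmA
        apply hm
        refine h3 (a := pt m zer) ?_
        rintro ⟨n, hn1, hn2⟩
        rw [zs_unique (sg_pt m zer) hn2] at hmA
        exact hmA hn1)
      have := h4 hm2
      exact this ⟨m, hm1, sg_pt m zer⟩)
  apply h5
  obtain ⟨W, hW, hW2⟩ := pi_iff.1 hZp
  obtain ⟨W', hW', hW'2⟩ := pi_iff.1 hZp'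
  -- set-theoretic form of the hypotheses
  have hinter : ∀ x, x ∈ Z → x ∈ Z' → ∀ n, n ∈ A → sg x (n + 1) ≠ zs n := by
    intro x hx hx' n hn hs
    have := h3 ⟨Z ∩ Z', pi_inter hZp hZp', Set.subset_inter hZ0 hZ0'⟩
      Set.inter_subset_left Set.inter_subset_right
    exact this (a := x) ⟨hx, hx'⟩ ⟨n, hn, hs⟩
  have hunion : ∀ x, x ∈ Z ∨ x ∈ Z' := by
    intro x
    have := h4 ⟨Z ∪ Z', pi_union hZp hZp', hZ0.trans Set.subset_union_left⟩
      Set.subset_union_left Set.subset_union_right ⟨Set.univ, pi_univ, Set.subset_univ _⟩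
    exact this (Set.mem_univ x)
  have hYZ : ∀ x, x ∉ Z → ∃ n, n ∈ V ∧ sg x (n + 1) = zs n := by
    intro x hx
    by_contra hn
    exact hx (h1 (a := x) hn)
  have hXZ' : ∀ x, x ∉ Z' → ∃ n, n ∈ A ∧ sg x (n + 1) = zs n := by
    intro x hx
    by_contra hn
    exact hx (h2 (a := x) hn)
  have hx' : ∀ n, (∃ y, ∃ k, W (sg (pt n y) k)) ↔ ∃ y, pt n y ∉ Z := by
    intro n; simp only [hW2]
  have hz' : ∀ n, (∀ y, ∃ k, W' (sg (pt n y) k)) ↔ ∀ y, pt n y ∉ Z' := by
    intro n; simp only [hW'2]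
  have hcomp : ComputablePred fun n => ∃ y, ∃ k, W (sg (pt n y) k) := by
    refine negative (re_ex hW) (re_all hW') ?_ ?_ ?_
    · intro m
      rw [hx', hz']
      constructor
      · intro hm
        by_contra hcon
        push Not at hcon
        obtain ⟨hc1, y, hy⟩ := hcon
        exact hinter _ (hc1 y) hy m hm (sg_pt m y)
      · rintro (⟨y, hy⟩ | hy)
        · obtain ⟨n, hn1, hn2⟩ := hYZ _ hy
          rw [zs_unique (sg_pt m y) hn2]
          exact V_subset hn1
        · obtain ⟨n, hn1, hn2⟩ := hXZ' _ (hy zer)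
          rw [zs_unique (sg_pt m zer) hn2]
          exact hn1
    · intro m hm
      rw [hz']
      obtain ⟨y, hy⟩ := (hx' m).1 hm
      intro hcon
      exact hcon y ((hunion _).resolve_left hy)
    · intro m hm
      obtain ⟨y, hy⟩ := (hx' m).1 hm
      obtain ⟨n, hn1, hn2⟩ := hYZ _ hy
      rw [zs_unique (sg_pt m y) hn2]
      exact hn1
  -- the complement of `Z`
  have hZ'' : Pi {x | x ∈ Z → x = zer} := by
    refine pi_iff.2 ⟨fun σ => ∃ n, σ.take (n + 1) = zs n ∧
      ((¬ ∃ y, ∃ k, W (sg (pt n y) k)) ∨ ((∃ y, ∃ k, W (sg (pt n y) k)) ∧ ∃ k, W' (σ.take k))),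
      ?_, fun x => ?_⟩
    · refine RE.exN (p := fun (σ : List Bool) n => σ.take (n + 1) = zs n ∧
        ((¬ ∃ y, ∃ k, W (sg (pt n y) k)) ∨ ((∃ y, ∃ k, W (sg (pt n y) k)) ∧
        ∃ k, W' (σ.take k)))) (RE.and (RE.eq (ctake (by fun_prop) (by fun_prop))
        (czs (by fun_prop))) (RE.or ?_ (RE.and ?_ ?_)))
      · exact RE.comp hcomp.not.to_re (f := fun z : List Bool × ℕ => z.2) (by fun_prop)
      · exact RE.comp hcomp.to_re (f := fun z : List Bool × ℕ => z.2) (by fun_prop)
      · exact RE.exN (p := fun (z : List Bool × ℕ) k => W' (z.1.take k)) (RE.comp hW'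
          (ctake (by fun_prop) (by fun_prop)))
    · constructor
      · intro hx
        simp only [Set.mem_ofPred_eq, Classical.not_imp] at hx
        obtain ⟨hxZ, hxne⟩ := hx
        obtain ⟨n, hn⟩ := exists_zs hxne
        by_cases hc : ∃ y, ∃ k, W (sg (pt n y) k)
        · obtain ⟨y, hy⟩ := (hx' n).1 hc
          obtain ⟨n', hn1, hn2⟩ := hYZ _ hy
          have hnV : n ∈ V := by rw [zs_unique (sg_pt n y) hn2]; exact hn1
          have hxZ' : x ∉ Z' := fun h => hinter x hxZ h n (V_subset hnV) hn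
          obtain ⟨k, hk⟩ := (hW'2 x).1 hxZ'
          refine ⟨max (n + 1) k, n, ?_, Or.inr ⟨hc, k, ?_⟩⟩
          · rw [sg_take x (le_max_left _ _)]; exact hn
          · rw [sg_take x (le_max_right _ _)]; exact hk
        · exact ⟨n + 1, n, by rw [sg_take x le_rfl]; exact hn, Or.inl hc⟩
      · rintro ⟨m, n, h6, h7⟩
        simp only [Set.mem_ofPred_eq, Classical.not_imp]
        rw [sg_take'] at h6
        have hlen : min (n + 1) m = n + 1 := by
          rw [← sg_length x (min (n + 1) m), h6, zs_length]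
        rw [hlen] at h6
        refine ⟨?_, ne_zer h6⟩
        rcases h7 with h7 | ⟨_, k, h7⟩
        · by_contra hxZ
          apply h7
          rw [hx']
          exact ⟨_, by rw [← eq_pt h6]; exact hxZ⟩
        · rw [sg_take'] at h7
          have : x ∉ Z' := (hW'2 x).2 ⟨_, h7⟩
          exact (hunion x).resolve_right this
  refine ⟨⟨_, hZ'', ?_⟩, ?_, ?_⟩
  · rw [Set.singleton_subset_iff]
    exact fun _ => rfl
  · intro D hD hD' E x hx
    have h6 := hD hx
    have h7 := hD' hx h6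
    rw [h7]
    exact E.2.2 rfl
  · intro D hD hD' E x _
    by_cases hxZ : x ∈ Z
    · exact hD hxZ
    · exact hD' (a := x) (fun h => absurd h hxZ)

/-- the two lattices are not isomorphic -/
theorem not_iso : ¬ Nonempty (SP ∅ ≃o SP {zer}) := by
  rintro ⟨e⟩
  exact not_psi (psi_iso e psi_compact)

end Pool.Agent.TH744.Sm
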