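import Pool.Agent.Helper446.Comp
import Pool.Agent.TH744.Gas.Col

/-! Two c.e. sets `V ⊆ A` such that `V` is not contained in a computable subset of `A`, while every
c.e. set `x ⊆ V` with c.e. complement `A \ x` in `A` is computable. -/

set_option autoImplicit false

namespace Pool.Agent.TH744.Sm

open Pool.Agent.Helper446 Pool.Agent.TH744.Gas

/-! ### List combinators -/

/-- select and map -/
def fsel (p : ℕ → Bool) (g : ℕ → ℕ) (l : List ℕ) : List ℕ :=
  l.foldl (fun acc m => bif p m then acc ++ [g m] else acc) []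

theorem mem_foldl_sel (p : ℕ → Bool) (g : ℕ → ℕ) (l a : List ℕ) (y : ℕ) :
    y ∈ l.foldl (fun acc m => bif p m then acc ++ [g m] else acc) a ↔
      y ∈ a ∨ ∃ m ∈ l, p m = true ∧ y = g m := by
  induction l generalizing a with
  | nil => simp
  | cons b l ih =>
    rw [List.foldl_cons, ih]
    rcases hb : p b with _ | _
    · simp only [cond_false, List.mem_cons]
      constructor
      · rintro (h | ⟨m, h1, h2⟩)
        · exact Or.inl h
        · exact Or.inr ⟨m, Or.inr h1, h2⟩
      · rintro (h | ⟨m, rfl | h1, h2⟩)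
        · exact Or.inl h
        · rw [hb] at h2; exact absurd h2.1 (by simp)
        · exact Or.inr ⟨m, h1, h2⟩
    · simp only [cond_true, List.mem_append, List.mem_singleton]
      constructor
      · rintro ((h | h) | ⟨m, h1, h2⟩)
        · exact Or.inl h
        · exact Or.inr ⟨b, List.mem_cons_self, hb, h⟩
        · exact Or.inr ⟨m, List.mem_cons_of_mem _ h1, h2⟩
      · rintro (h | ⟨m, h1, h2⟩)
        · exact Or.inl (Or.inl h)
        · rcases List.mem_cons.1 h1 with rfl | h1
          · exact Or.inl (Or.inr h2.2)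
          · exact Or.inr ⟨m, h1, h2⟩

theorem mem_fsel {p : ℕ → Bool} {g : ℕ → ℕ} {l : List ℕ} {y : ℕ} :
    y ∈ fsel p g l ↔ ∃ m ∈ l, p m = true ∧ y = g m := by
  unfold fsel
  rw [mem_foldl_sel]
  simp

/-- universal quantifier over a list -/
def allL (p : ℕ → Bool) (l : List ℕ) : Bool := l.foldl (fun b m => b && p m) true

theorem foldl_and (p : ℕ → Bool) (l : List ℕ) (b : Bool) :
    l.foldl (fun b m => b && p m) b = true ↔ b = true ∧ ∀ m ∈ l, p m = true := by
  induction l generalizing b with
  | nil => simp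
  | cons a l ih =>
    rw [List.foldl_cons, ih]
    simp [and_assoc]

theorem allL_iff {p : ℕ → Bool} {l : List ℕ} : allL p l = true ↔ ∀ m ∈ l, p m = true := by
  unfold allL
  rw [foldl_and]
  simp

section comp

variable {α : Type} [Primcodable α]

theorem cfsel {p : α → ℕ → Bool} {g : α → ℕ → ℕ} {l : α → List ℕ}
    (hp : Computable fun x : α × ℕ => p x.1 x.2) (hg : Computable fun x : α × ℕ => g x.1 x.2)
    (hl : Computable l) : Computable fun a => fsel (p a) (g a) (l a) := by
  have h : Computable₂ fun (a : α) (q : List ℕ × ℕ) =>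
      bif p a q.2 then q.1 ++ [g a q.2] else q.1 := by
    have h1 : Computable fun z : α × (List ℕ × ℕ) => p z.1 z.2.2 :=
      hp.comp (g := fun z : α × (List ℕ × ℕ) => (z.1, z.2.2)) (by fun_prop)
    have h2 : Computable fun z : α × (List ℕ × ℕ) => g z.1 z.2.2 :=
      hg.comp (g := fun z : α × (List ℕ × ℕ) => (z.1, z.2.2)) (by fun_prop)
    have h3 : Computable fun z : α × (List ℕ × ℕ) => z.2.1 ++ [g z.1 z.2.2] := by fun_prop
    exact Computable.cond h1 h3 (by fun_prop)
  exact RE.list_foldl hl (Computable.const []) h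

theorem callL {p : α → ℕ → Bool} {l : α → List ℕ}
    (hp : Computable fun x : α × ℕ => p x.1 x.2) (hl : Computable l) :
    Computable fun a => allL (p a) (l a) := by
  have h : Computable₂ fun (a : α) (q : Bool × ℕ) => q.1 && p a q.2 := by
    have h1 : Computable fun z : α × (Bool × ℕ) => p z.1 z.2.2 :=
      hp.comp (g := fun z : α × (Bool × ℕ) => (z.1, z.2.2)) (by fun_prop)
    exact RE.cand (by fun_prop) h1
  exact RE.list_foldl hl (Computable.const true) h

theorem callB {p : α → ℕ → Bool} {f : α → ℕ}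
    (hp : Computable fun x : α × ℕ => p x.1 x.2) (hf : Computable f) :
    Computable fun a => RE.allB (p a) (f a) := RE.computable_allB hp hf

theorem cwst {e s m : α → ℕ} (he : Computable e) (hs : Computable s) (hm : Computable m) :
    Computable fun a => RE.wst ℕ (e a) (s a) (m a) :=
  RE.wst_comp.comp (g := fun a => ((e a, s a), m a)) (by fun_prop)

theorem cdle {f g : α → ℕ} (hf : Computable f) (hg : Computable g) :
    Computable fun a => decide (f a ≤ g a) := by
  have : Primrec₂ fun m n : ℕ => decide (m ≤ n) := Primrec.nat_le.decide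
  exact this.to_comp.comp hf hg

theorem cdlt {f g : α → ℕ} (hf : Computable f) (hg : Computable g) :
    Computable fun a => decide (f a < g a) := by
  have : Primrec₂ fun m n : ℕ => decide (m < n) := Primrec.nat_lt.decide
  exact this.to_comp.comp hf hg

theorem cdeq {f g : α → ℕ} (hf : Computable f) (hg : Computable g) :
    Computable fun a => decide (f a = g a) := by
  have : Primrec₂ fun m n : ℕ => decide (m = n) := Primrec.eq.decide
  exact this.to_comp.comp hf hg

theorem crange {f : α → ℕ} (hf : Computable f) : Computable fun a => List.range (f a) :=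
  Primrec.list_range.to_comp.comp hf

end comp

/-! ### The construction -/

/-- the index of the requirement for which `m` is reserved -/
def ix (m : ℕ) : ℕ := m.unpair.1.unpair.1

/-- the guess for which `m` is reserved -/
def rk (m : ℕ) : ℕ := m.unpair.1.unpair.2

/-- `m` waits for the requirement `e` -/
def inR (e m : ℕ) : Bool := decide (e < ix m) && (rk m).testBit e

/-- there was an `e`-expansionary stage since `m` -/
def rch (e m : ℕ) (Ev : List ℕ) : Bool :=
  !(allL (fun p => !(decide (p.unpair.1 = e) && decide (m ≤ p.unpair.2))) Ev)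

/-- `m` is not cancelled -/
def live (Ev : List ℕ) (m : ℕ) : Bool :=
  RE.allB (fun e => (rk m).testBit e || !(rch e m Ev)) (ix m)

/-- requirement `i` is not yet satisfied -/
def fresh (V : List ℕ) (i : ℕ) : Bool := allL (fun m => !(decide (ix m = i))) V

/-- all requirements for which `m` waits have responded -/
def resp (s m : ℕ) : Bool :=
  RE.allB (fun e => !((rk m).testBit e) || RE.wst ℕ e.unpair.2 s m) (ix m)

/-- the condition for `s` to be an `e`-expansionary stage -/
def expn (e s : ℕ) (A Ev : List ℕ) : Bool :=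
  allL (fun m => !(rch e m Ev) || (RE.wst ℕ e.unpair.2 s m ||
    (RE.wst ℕ e.unpair.1 s m && !(inR e m)))) A

/-- one step of the construction -/
def step (s : ℕ) (S : List ℕ × List ℕ × List ℕ) : List ℕ × List ℕ × List ℕ :=
  (S.1 ++ fsel (fun m => live S.2.2 m && (fresh S.2.1 (ix m) && RE.wst ℕ (ix m) s m)) (fun m => m)
      (List.range (s + 1)),
   S.2.1 ++ fsel (fun m => live S.2.2 m && (fresh S.2.1 (ix m) && resp s m)) (fun m => m) S.1,
   S.2.2 ++ fsel (fun e => expn e s S.1 S.2.2) (fun e => Nat.pair e s) (List.range (s + 1)))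

/-- the construction -/
def st (s : ℕ) : List ℕ × List ℕ × List ℕ :=
  Nat.rec (motive := fun _ => List ℕ × List ℕ × List ℕ) ([], [], []) (fun i S => step i S) s

theorem st_succ (s : ℕ) : st (s + 1) = step s (st s) := rfl

section comp

variable {α : Type} [Primcodable α]

theorem cix {f : α → ℕ} (hf : Computable f) : Computable fun a => ix (f a) := by
  unfold ix; fun_prop

theorem crk {f : α → ℕ} (hf : Computable f) : Computable fun a => rk (f a) := by
  unfold rk; fun_prop

theorem cinR {e m : α → ℕ} (he : Computable e) (hm : Computable m) :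
    Computable fun a => inR (e a) (m a) :=
  RE.cand (cdlt he (cix hm)) (testBit_comp (crk hm) he)

theorem crch {e m : α → ℕ} {Ev : α → List ℕ} (he : Computable e) (hm : Computable m)
    (hE : Computable Ev) : Computable fun a => rch (e a) (m a) (Ev a) := by
  refine RE.cnot (callL ?_ hE)
  refine RE.cnot (RE.cand (cdeq (by fun_prop) (by fun_prop)) (cdle (by fun_prop) (by fun_prop)))

theorem clive {m : α → ℕ} {Ev : α → List ℕ} (hE : Computable Ev) (hm : Computable m) :
    Computable fun a => live (Ev a) (m a) := by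
  refine callB ?_ (cix hm)
  exact RE.cor (testBit_comp (crk (by fun_prop)) (by fun_prop))
    (RE.cnot (crch (by fun_prop) (by fun_prop) (by fun_prop)))

theorem cfresh {i : α → ℕ} {V : α → List ℕ} (hV : Computable V) (hi : Computable i) :
    Computable fun a => fresh (V a) (i a) := by
  refine callL ?_ hV
  exact RE.cnot (cdeq (cix (by fun_prop)) (by fun_prop))

theorem cresp {s m : α → ℕ} (hs : Computable s) (hm : Computable m) :
    Computable fun a => resp (s a) (m a) := by
  refine callB ?_ (cix hm)
  exact RE.cor (RE.cnot (testBit_comp (crk (by fun_prop)) (by fun_prop)))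
    (cwst (by fun_prop) (by fun_prop) (by fun_prop))

theorem cexpn {e s : α → ℕ} {A Ev : α → List ℕ} (he : Computable e) (hs : Computable s)
    (hA : Computable A) (hE : Computable Ev) :
    Computable fun a => expn (e a) (s a) (A a) (Ev a) := by
  refine callL ?_ hA
  exact RE.cor (RE.cnot (crch (by fun_prop) (by fun_prop) (by fun_prop)))
    (RE.cor (cwst (by fun_prop) (by fun_prop) (by fun_prop))
      (RE.cand (cwst (by fun_prop) (by fun_prop) (by fun_prop))
        (RE.cnot (cinR (by fun_prop) (by fun_prop)))))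

theorem cstep {s : α → ℕ} {S : α → List ℕ × List ℕ × List ℕ} (hs : Computable s)
    (hS : Computable S) : Computable fun a => step (s a) (S a) := by
  have h1 : Computable fun a => fsel (fun m => live (S a).2.2 m &&
      (fresh (S a).2.1 (ix m) && RE.wst ℕ (ix m) (s a) m)) (fun m => m)
      (List.range (s a + 1)) := by
    refine cfsel (g := fun _ m => m) ?_ (by fun_prop) (crange (by fun_prop))
    exact RE.cand (clive (by fun_prop) (by fun_prop)) (RE.cand
      (cfresh (by fun_prop) (cix (by fun_prop))) (cwst (cix (by fun_prop)) (by fun_prop)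
        (by fun_prop)))
  have h2 : Computable fun a => fsel (fun m => live (S a).2.2 m &&
      (fresh (S a).2.1 (ix m) && resp (s a) m)) (fun m => m) (S a).1 := by
    refine cfsel (g := fun _ m => m) ?_ (by fun_prop) (by fun_prop)
    exact RE.cand (clive (by fun_prop) (by fun_prop)) (RE.cand
      (cfresh (by fun_prop) (cix (by fun_prop))) (cresp (by fun_prop) (by fun_prop)))
  have h3 : Computable fun a => fsel (fun e => expn e (s a) (S a).1 (S a).2.2)
      (fun e => Nat.pair e (s a)) (List.range (s a + 1)) := by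
    refine cfsel (g := fun a e => Nat.pair e (s a)) ?_ (by fun_prop) (crange (by fun_prop))
    exact cexpn (by fun_prop) (by fun_prop) (by fun_prop) (by fun_prop)
  unfold step
  exact (RE.cappend (by fun_prop) h1).pair ((RE.cappend (by fun_prop) h2).pair
    (RE.cappend (by fun_prop) h3))

end comp

theorem cst : Computable st := by
  have h : Computable₂ fun (_ : ℕ) (q : ℕ × (List ℕ × List ℕ × List ℕ)) => step q.1 q.2 :=
    cstep (s := fun z : ℕ × (ℕ × (List ℕ × List ℕ × List ℕ)) => z.2.1)
      (S := fun z : ℕ × (ℕ × (List ℕ × List ℕ × List ℕ)) => z.2.2) (by fun_prop) (by fun_prop)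
  exact (Computable.nat_rec Computable.id (Computable.const ([], [], [])) h).of_eq fun n => rfl

/-! ### Specifications -/

/-- the set `A` -/
def A : Set ℕ := {m | ∃ s, m ∈ (st s).1}

/-- the set `V` -/
def V : Set ℕ := {m | ∃ s, m ∈ (st s).2.1}

theorem re_A : REPred fun m => m ∈ A :=
  RE.exN (p := fun m s => m ∈ (st s).1) (RE.mem_list (by fun_prop)
    (Computable.fst.comp (cst.comp (g := fun x : ℕ × ℕ => x.2) (by fun_prop))))

theorem re_V : REPred fun m => m ∈ V :=
  RE.exN (p := fun m s => m ∈ (st s).2.1) (RE.mem_list (by fun_prop)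
    (Computable.fst.comp (Computable.snd.comp
      (cst.comp (g := fun x : ℕ × ℕ => x.2) (by fun_prop)))))

theorem mono_A {s t : ℕ} (h : s ≤ t) {m : ℕ} (hm : m ∈ (st s).1) : m ∈ (st t).1 := by
  induction t with
  | zero => rw [Nat.le_zero.1 h] at hm; exact hm
  | succ t ih =>
    rcases Nat.lt_or_eq_of_le h with h' | rfl
    · rw [st_succ]
      exact List.mem_append_left _ (ih (Nat.lt_succ_iff.1 h'))
    · exact hm

theorem mono_V {s t : ℕ} (h : s ≤ t) {m : ℕ} (hm : m ∈ (st s).2.1) : m ∈ (st t).2.1 := by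
  induction t with
  | zero => rw [Nat.le_zero.1 h] at hm; exact hm
  | succ t ih =>
    rcases Nat.lt_or_eq_of_le h with h' | rfl
    · rw [st_succ]
      exact List.mem_append_left _ (ih (Nat.lt_succ_iff.1 h'))
    · exact hm

theorem mono_E {s t : ℕ} (h : s ≤ t) {m : ℕ} (hm : m ∈ (st s).2.2) : m ∈ (st t).2.2 := by
  induction t with
  | zero => rw [Nat.le_zero.1 h] at hm; exact hm
  | succ t ih =>
    rcases Nat.lt_or_eq_of_le h with h' | rfl
    · rw [st_succ]
      exact List.mem_append_left _ (ih (Nat.lt_succ_iff.1 h'))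
    · exact hm

theorem rch_iff {e m : ℕ} {Ev : List ℕ} :
    rch e m Ev = true ↔ ∃ t, m ≤ t ∧ Nat.pair e t ∈ Ev := by
  unfold rch
  rw [Bool.not_eq_true', ← Bool.not_eq_true, allL_iff]
  push Not
  constructor
  · rintro ⟨p, hp, h⟩
    simp only [Bool.not_eq_true', Bool.not_eq_false, ne_eq, Bool.and_eq_true,
      decide_eq_true_eq] at h
    have h' : p.unpair.1 = e ∧ m ≤ p.unpair.2 := by simpa using h
    refine ⟨p.unpair.2, h'.2, ?_⟩
    rw [← h'.1, Nat.pair_unpair]
    exact hp
  · rintro ⟨t, ht, h⟩
    refine ⟨_, h, ?_⟩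
    simp [ht]

theorem rch_mono {e m s t : ℕ} (h : s ≤ t) (hr : rch e m (st s).2.2 = true) :
    rch e m (st t).2.2 = true := by
  rw [rch_iff] at hr ⊢
  obtain ⟨u, h1, h2⟩ := hr
  exact ⟨u, h1, mono_E h h2⟩

theorem live_iff {Ev : List ℕ} {m : ℕ} : live Ev m = true ↔
    ∀ e < ix m, (rk m).testBit e = true ∨ rch e m Ev = false := by
  unfold live
  rw [RE.allB_iff]
  simp only [Bool.or_eq_true, Bool.not_eq_true']

theorem fresh_iff {V : List ℕ} {i : ℕ} : fresh V i = true ↔ ∀ m ∈ V, ix m ≠ i := by
  unfold fresh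
  rw [allL_iff]
  simp

theorem resp_iff {s m : ℕ} : resp s m = true ↔
    ∀ e < ix m, (rk m).testBit e = true → RE.wst ℕ e.unpair.2 s m = true := by
  unfold resp
  rw [RE.allB_iff]
  refine forall₂_congr fun e he => ?_
  rcases (rk m).testBit e with _ | _ <;> simp

theorem inR_iff {e m : ℕ} : inR e m = true ↔ e < ix m ∧ (rk m).testBit e = true := by
  unfold inR; simp

theorem expn_iff {e s : ℕ} {A Ev : List ℕ} : expn e s A Ev = true ↔
    ∀ m ∈ A, rch e m Ev = true → RE.wst ℕ e.unpair.2 s m = true ∨
      (RE.wst ℕ e.unpair.1 s m = true ∧ inR e m = false) := by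
  unfold expn
  rw [allL_iff]
  refine forall₂_congr fun m hm => ?_
  rcases rch e m Ev with _ | _ <;> simp

theorem mem_A_succ {s m : ℕ} : m ∈ (st (s + 1)).1 ↔ m ∈ (st s).1 ∨
    (m ≤ s ∧ live (st s).2.2 m = true ∧ fresh (st s).2.1 (ix m) = true ∧
      RE.wst ℕ (ix m) s m = true) := by
  rw [st_succ]
  unfold step
  simp only [List.mem_append, mem_fsel, Bool.and_eq_true, List.mem_range, Nat.lt_succ_iff]
  refine or_congr Iff.rfl ⟨?_, ?_⟩
  · rintro ⟨m', h1, h2, rfl⟩; exact ⟨h1, h2.1, h2.2.1, h2.2.2⟩
  · rintro ⟨h1, h2, h3, h4⟩; exact ⟨m, h1, ⟨h2, h3, h4⟩, rfl⟩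

theorem mem_V_succ {s m : ℕ} : m ∈ (st (s + 1)).2.1 ↔ m ∈ (st s).2.1 ∨
    (m ∈ (st s).1 ∧ live (st s).2.2 m = true ∧ fresh (st s).2.1 (ix m) = true ∧
      resp s m = true) := by
  rw [st_succ]
  unfold step
  simp only [List.mem_append, mem_fsel, Bool.and_eq_true]
  refine or_congr Iff.rfl ⟨?_, ?_⟩
  · rintro ⟨m', h1, h2, rfl⟩; exact ⟨h1, h2.1, h2.2.1, h2.2.2⟩
  · rintro ⟨h1, h2, h3, h4⟩; exact ⟨m, h1, ⟨h2, h3, h4⟩, rfl⟩

theorem mem_E_succ {s e t : ℕ} : Nat.pair e t ∈ (st (s + 1)).2.2 ↔ Nat.pair e t ∈ (st s).2.2 ∨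
    (t = s ∧ e ≤ s ∧ expn e s (st s).1 (st s).2.2 = true) := by
  rw [st_succ]
  unfold step
  simp only [List.mem_append, mem_fsel, List.mem_range, Nat.lt_succ_iff]
  refine or_congr Iff.rfl ⟨?_, ?_⟩
  · rintro ⟨e', h1, h2, h3⟩
    obtain ⟨rfl, rfl⟩ := Nat.pair_eq_pair.1 h3
    exact ⟨rfl, h1, h2⟩
  · rintro ⟨rfl, h1, h2⟩
    exact ⟨e, h1, h2, rfl⟩

theorem V_sub_A {s m : ℕ} (h : m ∈ (st s).2.1) : m ∈ (st s).1 := by
  induction s with
  | zero => exact absurd h (by simp [st])
  | succ s ih =>
    rcases mem_V_succ.1 h with h1 | h1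
    · exact mono_A (Nat.le_succ s) (ih h1)
    · exact mono_A (Nat.le_succ s) h1.1

theorem V_subset : V ⊆ A := fun _ ⟨s, hs⟩ => ⟨s, V_sub_A hs⟩

/-- the elements of `V` have received all responses -/
theorem resp_of_V {m : ℕ} (h : m ∈ V) : ∃ s, resp s m = true := by
  obtain ⟨s, hs⟩ := h
  induction s with
  | zero => exact absurd hs (by simp [st])
  | succ s ih =>
    rcases mem_V_succ.1 hs with h1 | h1
    · exact ih h1
    · exact ⟨s, h1.2.2.2⟩

/-- the elements of `A` are in the c.e. set of their requirement -/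
theorem wst_of_A {m : ℕ} (h : m ∈ A) : ∃ s, RE.wst ℕ (ix m) s m = true := by
  obtain ⟨s, hs⟩ := h
  induction s with
  | zero => exact absurd hs (by simp [st])
  | succ s ih =>
    rcases mem_A_succ.1 hs with h1 | h1
    · exact ih h1
    · exact ⟨s, h1.2.2.2⟩

/-- each requirement contributes finitely many elements to `V` -/
theorem finite_class (i : ℕ) : {m ∈ V | ix m = i}.Finite := by
  by_cases hex : ∃ s, ∃ m ∈ (st s).2.1, ix m = i
  · obtain ⟨s, m0, hm0, hi⟩ := hex
    refine Set.Finite.subset (List.finite_toSet (st s).2.1) ?_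
    rintro m ⟨⟨t, ht⟩, hmi⟩
    show m ∈ (st s).2.1
    rcases Nat.le_total t s with h | h
    · exact mono_V h ht
    · induction t with
      | zero => exact absurd ht (by simp [st])
      | succ t ih =>
        rcases Nat.lt_or_eq_of_le h with h' | h'
        · rcases mem_V_succ.1 ht with h1 | h1
          · exact ih h1 (Nat.lt_succ_iff.1 h')
          · exfalso
            exact fresh_iff.1 h1.2.2.1 m0 (mono_V (Nat.lt_succ_iff.1 h') hm0) (hi.trans hmi.symm)
        · rw [h']; exact ht
  · refine Set.finite_empty.subset ?_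
    rintro m ⟨⟨s, hs⟩, hmi⟩
    exact hex ⟨s, m, hs, hmi⟩

/-- the requirement `e` has infinitely many expansionary stages -/
def Inf (e : ℕ) : Prop := ∀ m, ∃ s, rch e m (st s).2.2 = true

theorem not_inf {e : ℕ} (h : ¬ Inf e) : ∃ b, ∀ m, b ≤ m → ∀ s, rch e m (st s).2.2 = false := by
  unfold Inf at h
  push Not at h
  obtain ⟨b, hb⟩ := h
  refine ⟨b, fun m hm s => ?_⟩
  by_contra hcon
  rw [Bool.not_eq_false, rch_iff] at hcon
  obtain ⟨t, h1, h2⟩ := hcon
  exact hb s (rch_iff.2 ⟨t, hm.trans h1, h2⟩)

/-- an expansionary stage beyond any given stage -/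
theorem exists_expn {e : ℕ} (h : Inf e) (m s0 : ℕ) : ∃ s, s0 ≤ s ∧ rch e m (st s).2.2 = true ∧
    expn e s (st s).1 (st s).2.2 = true := by
  obtain ⟨s1, hs1⟩ := h m
  obtain ⟨s, hs⟩ := h (max s0 s1)
  obtain ⟨t, h1, h2⟩ := rch_iff.1 hs
  -- the stage `t`
  have key : ∀ s, Nat.pair e t ∈ (st s).2.2 → expn e t (st t).1 (st t).2.2 = true := by
    intro s
    induction s with
    | zero => intro h; exact absurd h (by simp [st])
    | succ s ih =>
      intro h
      rcases mem_E_succ.1 h with h3 | ⟨rfl, _, h3⟩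
      · exact ih h3
      · exact h3
  exact ⟨t, (le_max_left _ _).trans h1, rch_mono ((le_max_right _ _).trans h1) hs1, key s h2⟩

/-- every element of `A` gets the response of an infinitely often active requirement -/
theorem response {e m : ℕ} (h : Inf e) (hA : m ∈ A) : ∃ s, RE.wst ℕ e.unpair.2 s m = true ∨
    (RE.wst ℕ e.unpair.1 s m = true ∧ inR e m = false) := by
  obtain ⟨s0, hs0⟩ := hA
  obtain ⟨s, h1, h2, h3⟩ := exists_expn h m s0
  exact ⟨s, expn_iff.1 h3 m (mono_A h1 hs0) h2⟩

/-! ### The positive requirements -/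

theorem positive {W : ℕ → Prop} (hW : REPred W) (hWA : ∀ m, ¬ W m → m ∈ A) :
    ∃ m, m ∈ V ∧ W m := by
  classical
  obtain ⟨i, hi⟩ := RE.wst_univ hW
  by_contra hcon
  push Not at hcon
  -- requirement `i` is never satisfied
  have hfresh : ∀ s, fresh (st s).2.1 i = true := by
    intro s
    rw [fresh_iff]
    intro m hm hmi
    obtain ⟨t, ht⟩ := wst_of_A (V_subset ⟨s, hm⟩)
    exact hcon m ⟨s, hm⟩ ((hi m).2 ⟨t, hmi ▸ ht⟩)
  obtain ⟨r, hr⟩ := exists_bits (fun e => decide (Inf e)) i
  -- a bound for the false guesses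
  obtain ⟨b, hb⟩ : ∃ b, ∀ e < i, ¬ Inf e → ∀ m, b ≤ m → ∀ s, rch e m (st s).2.2 = false := by
    have key : ∀ j, ∃ b, ∀ e < j, ¬ Inf e → ∀ m, b ≤ m → ∀ s, rch e m (st s).2.2 = false := by
      intro j
      induction j with
      | zero => exact ⟨0, fun e he => absurd he (Nat.not_lt_zero e)⟩
      | succ j ih =>
        obtain ⟨b, hb⟩ := ih
        by_cases hj : Inf j
        · refine ⟨b, fun e he hne => ?_⟩
          rcases Nat.lt_succ_iff_lt_or_eq.1 he with h | rfl
          · exact hb e h hne
          · exact absurd hj hne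
        · obtain ⟨b', hb'⟩ := not_inf hj
          refine ⟨max b b', fun e he hne m hm => ?_⟩
          rcases Nat.lt_succ_iff_lt_or_eq.1 he with h | rfl
          · exact hb e h hne m ((le_max_left _ _).trans hm)
          · exact hb' m ((le_max_right _ _).trans hm)
    exact key i
  set m := Nat.pair (Nat.pair i r) b with hm
  have hix : ix m = i := by unfold ix; rw [hm]; simp
  have hrk : rk m = r := by unfold rk; rw [hm]; simp
  have hbm : b ≤ m := Nat.right_le_pair _ _
  have hlive : ∀ s, live (st s).2.2 m = true := by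
    intro s
    rw [live_iff, hix, hrk]
    intro e he
    by_cases hInf : Inf e
    · left; rw [hr e he]; exact decide_eq_true hInf
    · right; exact hb e he hInf m hbm s
  -- `m` enters `A`
  have hWm : W m := by
    by_contra hn
    obtain ⟨t, ht⟩ := wst_of_A (hWA m hn)
    rw [hix] at ht
    exact hn ((hi m).2 ⟨t, ht⟩)
  have hmA : m ∈ A := by
    obtain ⟨t, ht⟩ := (hi m).1 hWm
    refine ⟨max t m + 1, mem_A_succ.2 (Or.inr ⟨le_max_right _ _, hlive _, ?_, ?_⟩)⟩
    · rw [hix]; exact hfresh _
    · rw [hix]; exact RE.wst_mono (le_max_left _ _) ht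
  -- all responses arrive
  have hresp : ∃ s, resp s m = true := by
    have key : ∀ j, j ≤ i → ∃ s, ∀ e < j, (rk m).testBit e = true →
        RE.wst ℕ e.unpair.2 s m = true := by
      intro j
      induction j with
      | zero => intro _; exact ⟨0, fun e he => absurd he (Nat.not_lt_zero e)⟩
      | succ j ih =>
        intro hj
        obtain ⟨s, hs⟩ := ih (by omega)
        by_cases hbit : (rk m).testBit j = true
        · have hInf : Inf j := by
            rw [hrk, hr j (by omega)] at hbit
            exact of_decide_eq_true hbit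
          obtain ⟨t, ht⟩ := response hInf hmA
          have ht' : RE.wst ℕ j.unpair.2 t m = true := by
            rcases ht with ht | ⟨_, ht⟩
            · exact ht
            · exfalso
              have : inR j m = true := inR_iff.2 ⟨by rw [hix]; omega, hbit⟩
              rw [this] at ht
              exact absurd ht (by simp)
          refine ⟨max s t, fun e he hbe => ?_⟩
          rcases Nat.lt_succ_iff_lt_or_eq.1 he with h | rfl
          · exact RE.wst_mono (le_max_left _ _) (hs e h hbe)
          · exact RE.wst_mono (le_max_right _ _) ht'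
        · refine ⟨s, fun e he hbe => ?_⟩
          rcases Nat.lt_succ_iff_lt_or_eq.1 he with h | rfl
          · exact hs e h hbe
          · exact absurd hbe hbit
    obtain ⟨s, hs⟩ := key i le_rfl
    exact ⟨s, resp_iff.2 (by rw [hix]; exact hs)⟩
  obtain ⟨s, hs⟩ := hresp
  obtain ⟨t, ht⟩ := hmA
  have hmV : m ∈ V := by
    refine ⟨max s t + 1, mem_V_succ.2 (Or.inr ⟨mono_A (le_max_right _ _) ht, hlive _, ?_, ?_⟩)⟩
    · rw [hix]; exact hfresh _
    · rw [resp_iff] at hs ⊢
      exact fun e he hb => RE.wst_mono (le_max_left _ _) (hs e he hb)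
  exact hcon m hmV hWm

/-! ### The negative requirements -/

theorem negative {x z : ℕ → Prop} (hx : REPred x) (hz : REPred z)
    (hA : ∀ m, m ∈ A ↔ x m ∨ z m) (hd : ∀ m, x m → ¬ z m) (hV : ∀ m, x m → m ∈ V) :
    ComputablePred x := by
  classical
  obtain ⟨a, ha⟩ := RE.wst_univ hx
  obtain ⟨b, hb⟩ := RE.wst_univ hz
  set e := Nat.pair a b with he
  have he1 : e.unpair.1 = a := by rw [he, Nat.unpair_pair]
  have he2 : e.unpair.2 = b := by rw [he, Nat.unpair_pair]
  -- elements of `x` do not wait for `e`
  have hc1 : ∀ m, x m → inR e m = false := by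
    intro m hm
    by_contra hcon
    rw [Bool.not_eq_false, inR_iff] at hcon
    obtain ⟨s, hs⟩ := resp_of_V (hV m hm)
    have := resp_iff.1 hs e hcon.1 hcon.2
    rw [he2] at this
    exact hd m hm ((hb m).2 ⟨s, this⟩)
  -- infinitely many expansionary stages
  have hInf : Inf e := by
    by_contra hn
    obtain ⟨c, hc⟩ := not_inf hn
    -- a stage at which the elements of `A` below `c` are settled
    obtain ⟨s0, hs0⟩ : ∃ s0, ∀ m < c, m ∈ A → m ∈ (st s0).1 ∧ (RE.wst ℕ b s0 m = true ∨
        (RE.wst ℕ a s0 m = true ∧ inR e m = false)) := by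
      have key : ∀ j, ∃ s0, ∀ m < j, m ∈ A → m ∈ (st s0).1 ∧ (RE.wst ℕ b s0 m = true ∨
        (RE.wst ℕ a s0 m = true ∧ inR e m = false)) := by
        intro j
        induction j with
        | zero => exact ⟨0, fun e he => absurd he (Nat.not_lt_zero e)⟩
        | succ j ih =>
          obtain ⟨s0, hs0⟩ := ih
          have hmono : ∀ {s t m}, s ≤ t → (m ∈ (st s).1 ∧ (RE.wst ℕ b s m = true ∨
              (RE.wst ℕ a s m = true ∧ inR e m = false))) →
              m ∈ (st t).1 ∧ (RE.wst ℕ b t m = true ∨
              (RE.wst ℕ a t m = true ∧ inR e m = false)) := by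
            rintro s t m hst ⟨h1, h2⟩
            refine ⟨mono_A hst h1, ?_⟩
            rcases h2 with h2 | ⟨h2, h3⟩
            · exact Or.inl (RE.wst_mono hst h2)
            · exact Or.inr ⟨RE.wst_mono hst h2, h3⟩
          by_cases hj : j ∈ A
          · obtain ⟨s1, hs1⟩ : ∃ s1, j ∈ (st s1).1 ∧ (RE.wst ℕ b s1 j = true ∨
                (RE.wst ℕ a s1 j = true ∧ inR e j = false)) := by
              obtain ⟨t, ht⟩ := hj
              rcases (hA j).1 ⟨t, ht⟩ with h | h
              · obtain ⟨u, hu⟩ := (ha j).1 h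
                exact ⟨max t u, mono_A (le_max_left _ _) ht, Or.inr
                  ⟨RE.wst_mono (le_max_right _ _) hu, hc1 j h⟩⟩
              · obtain ⟨u, hu⟩ := (hb j).1 h
                exact ⟨max t u, mono_A (le_max_left _ _) ht, Or.inl
                  (RE.wst_mono (le_max_right _ _) hu)⟩
            refine ⟨max s0 s1, fun m hm hmA => ?_⟩
            rcases Nat.lt_succ_iff_lt_or_eq.1 hm with h | rfl
            · exact hmono (le_max_left _ _) (hs0 m h hmA)
            · exact hmono (le_max_right _ _) hs1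
          · refine ⟨s0, fun m hm hmA => ?_⟩
            rcases Nat.lt_succ_iff_lt_or_eq.1 hm with h | rfl
            · exact hs0 m h hmA
            · exact absurd hmA hj
      exact key c
    set s := max s0 (max c e) with hs
    have h0 : s0 ≤ s := le_max_left _ _
    have h1 : c ≤ s := (le_max_left _ _).trans (le_max_right _ _)
    have h2 : e ≤ s := (le_max_right _ _).trans (le_max_right _ _)
    have h3 : expn e s (st s).1 (st s).2.2 = true := by
      rw [expn_iff]
      intro m hm hr
      have hmc : m < c := by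
        by_contra hcon
        rw [hc m (Nat.not_lt.1 hcon) s] at hr
        exact absurd hr (by simp)
      rw [he1, he2]
      rcases (hs0 m hmc ⟨s, hm⟩).2 with h | ⟨h, h'⟩
      · exact Or.inl (RE.wst_mono h0 h)
      · exact Or.inr ⟨RE.wst_mono h0 h, h'⟩
    have h4 : Nat.pair e s ∈ (st (s + 1)).2.2 := mem_E_succ.2 (Or.inr ⟨rfl, h2, h3⟩)
    have h5 : rch e c (st (s + 1)).2.2 = true := rch_iff.2 ⟨s, h1, h4⟩
    rw [hc c le_rfl] at h5
    exact absurd h5 (by simp)
  -- the finite exceptional set
  have hfin : {m ∈ V | ix m ≤ e}.Finite := by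
    have : {m ∈ V | ix m ≤ e} = ⋃ i ∈ Finset.range (e + 1), {m ∈ V | ix m = i} := by
      ext m
      simp only [Set.mem_ofPred_eq, Finset.mem_range, Set.mem_iUnion, exists_prop]
      constructor
      · rintro ⟨h1, h2⟩; exact ⟨ix m, by omega, h1, rfl⟩
      · rintro ⟨i, h1, h2, h3⟩; exact ⟨h2, by omega⟩
    rw [this]
    exact Set.Finite.biUnion (Finset.finite_toSet _) fun i _ => finite_class i
  obtain ⟨F, hF⟩ : ∃ F : List ℕ, ∀ m, m ∈ F ↔ m ∈ V ∧ ix m ≤ e :=
    ⟨hfin.toFinset.toList, fun m => by simp⟩
  -- the complement of `x` is c.e.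
  have hco : REPred fun m => ¬ x m := by
    have h1 : REPred fun m : ℕ => z m ∨ (inR e m = true ∨ ((ix m ≤ e ∧ m ∉ F) ∨
        (e < ix m ∧ inR e m = false ∧ ∃ s, rch e m (st s).2.2 = true ∧ m ∉ (st s).2.1))) := by
      have hst2 : Computable fun q : ℕ × ℕ => st q.2 := cst.comp (by fun_prop)
      refine RE.or hz (RE.or (RE.of_bool (cinR (by fun_prop) (by fun_prop))) (RE.or
        (RE.and (RE.le (cix (by fun_prop)) (by fun_prop)) (RE.not_mem_list (by fun_prop)
          (by fun_prop))) (RE.and (RE.lt (by fun_prop) (cix (by fun_prop))) (RE.and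
          (RE.eq (cinR (by fun_prop) (by fun_prop)) (by fun_prop)) (RE.exN
          (p := fun m s => rch e m (st s).2.2 = true ∧ m ∉ (st s).2.1) (RE.and
          (RE.of_bool (crch (by fun_prop) (by fun_prop) (by fun_prop)))
          (RE.not_mem_list (by fun_prop) (by fun_prop))))))))
    refine h1.of_eq fun m => ?_
    constructor
    · rintro (h | h | ⟨_, h⟩ | ⟨h2, h3, s, h4, h5⟩)
      · exact fun hxm => hd m hxm h
      · intro hxm
        rw [hc1 m hxm] at h
        exact absurd h (by simp)
      · intro hxm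
        exact h ((hF m).2 ⟨hV m hxm, by assumption⟩)
      · intro hxm
        obtain ⟨t, ht⟩ := hV m hxm
        -- `m` cannot enter `V` after stage `s`
        have key : ∀ t, m ∈ (st t).2.1 → m ∈ (st s).2.1 := by
          intro t
          induction t with
          | zero => intro h; exact absurd h (by simp [st])
          | succ t ih =>
            intro h
            rcases Nat.lt_or_ge t s with hts | hts
            · exact mono_V hts h
            · rcases mem_V_succ.1 h with h6 | h6
              · exact ih h6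
              · exfalso
                rcases live_iff.1 h6.2.1 e h2 with h7 | h7
                · have : inR e m = true := inR_iff.2 ⟨h2, h7⟩
                  rw [this] at h3; exact absurd h3 (by simp)
                · rw [rch_mono hts h4] at h7
                  exact absurd h7 (by simp)
        exact h5 (key t ht)
    · intro hxm
      by_cases hzm : z m
      · exact Or.inl hzm
      have hmA : m ∉ A := fun h => ((hA m).1 h).elim hxm hzm
      have hmV : ∀ s, m ∉ (st s).2.1 := fun s h => hmA (V_subset ⟨s, h⟩)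
      rcases hin : inR e m with _ | _
      · rcases Nat.lt_or_ge e (ix m) with h | h
        · obtain ⟨s, hs⟩ := hInf m
          exact Or.inr (Or.inr (Or.inr ⟨h, rfl, s, hs, hmV s⟩))
        · exact Or.inr (Or.inr (Or.inl ⟨h, fun hmF => hmA (V_subset ((hF m).1 hmF).1)⟩))
      · exact Or.inr (Or.inl rfl)
  exact RE.cp_of_re hx hco

end Pool.Agent.TH744.Sm
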