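import Pool.Agent.TH744.Sm.Constr

/-! Lattices of `Π⁰₁` supersets: a first-order sentence true in the lattice of all `Π⁰₁` classes and
false in the lattice of the `Π⁰₁` classes containing `0^ω`. -/

set_option autoImplicit false

namespace Pool.Agent.TH744.Sm

open Pool.Agent.Helper446 Pool.Agent.TH744.Gas

/-! ### The sentence -/

/-- `C` is complemented -/
def Cpl {α : Type} [LE α] (C : α) : Prop :=
  ∃ C' : α, (∀ D, D ≤ C → D ≤ C' → ∀ E, D ≤ E) ∧ (∀ D, C ≤ D → C' ≤ D → ∀ E, E ≤ D)

/-- the sentence -/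
def Psi (α : Type) [LE α] : Prop :=
  ∀ X Y : α, X ≤ Y → (¬ ∃ C : α, Cpl C ∧ X ≤ C ∧ C ≤ Y) →
    ∃ Z Z' : α, Y ≤ Z ∧ X ≤ Z' ∧ (∀ D, D ≤ Z → D ≤ Z' → D ≤ X) ∧
      (∀ D, Z ≤ D → Z' ≤ D → ∀ E, E ≤ D) ∧ ¬ Cpl Z

theorem cpl_iso {α β : Type} [LE α] [LE β] (e : α ≃o β) {C : α} (h : Cpl C) : Cpl (e C) := by
  obtain ⟨C', h1, h2⟩ := h
  refine ⟨e C', fun D hD hD' E => ?_, fun D hD hD' E => ?_⟩
  · have := h1 (e.symm D) (by rw [← e.le_iff_le, e.apply_symm_apply]; exact hD)
      (by rw [← e.le_iff_le, e.apply_symm_apply]; exact hD') (e.symm E)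
    rw [← e.symm.le_iff_le]; exact this
  · have := h2 (e.symm D) (by rw [← e.le_iff_le, e.apply_symm_apply]; exact hD)
      (by rw [← e.le_iff_le, e.apply_symm_apply]; exact hD') (e.symm E)
    rw [← e.symm.le_iff_le]; exact this

theorem psi_iso {α β : Type} [LE α] [LE β] (e : α ≃o β) (h : Psi α) : Psi β := by
  intro X Y hXY hno
  obtain ⟨Z, Z', h1, h2, h3, h4, h5⟩ := h (e.symm X) (e.symm Y) (e.symm.le_iff_le.2 hXY) (by
    rintro ⟨C, hC, hXC, hCY⟩
    refine hno ⟨e C, cpl_iso e hC, ?_, ?_⟩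
    · rw [← e.symm.le_iff_le, e.symm_apply_apply]; exact hXC
    · rw [← e.symm.le_iff_le, e.symm_apply_apply]; exact hCY)
  refine ⟨e Z, e Z', ?_, ?_, fun D hD hD' => ?_, fun D hD hD' E => ?_, fun hc => h5 ?_⟩
  · rw [← e.symm.le_iff_le, e.symm_apply_apply]; exact h1
  · rw [← e.symm.le_iff_le, e.symm_apply_apply]; exact h2
  · rw [← e.symm.le_iff_le]
    refine h3 _ ?_ ?_
    · rw [← e.le_iff_le, e.apply_symm_apply]; exact hD
    · rw [← e.le_iff_le, e.apply_symm_apply]; exact hD'
  · rw [← e.symm.le_iff_le]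
    refine h4 _ ?_ ?_ _
    · rw [← e.le_iff_le, e.apply_symm_apply]; exact hD
    · rw [← e.le_iff_le, e.apply_symm_apply]; exact hD'
  · have := cpl_iso e.symm hc
    rw [e.symm_apply_apply] at this
    exact this

/-! ### Classes -/

/-- initial segments -/
def sg (x : ℕ → Bool) (n : ℕ) : List Bool := (List.range n).map x

theorem sg_length (x : ℕ → Bool) (n : ℕ) : (sg x n).length = n := by simp [sg]

theorem sg_take (x : ℕ → Bool) {k n : ℕ} (h : k ≤ n) : (sg x n).take k = sg x k := by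
  unfold sg
  rw [← List.map_take, List.take_range, Nat.min_eq_left h]

theorem sg_take' (x : ℕ → Bool) (k n : ℕ) : (sg x n).take k = sg x (min k n) := by
  unfold sg
  rw [← List.map_take, List.take_range]

/-- extension of a string by zeros -/
def ext (σ : List Bool) : ℕ → Bool := fun n => σ.getD n false

theorem sg_ext (σ : List Bool) : sg (ext σ) σ.length = σ := by
  apply List.ext_getElem
  · simp [sg]
  · intro i h1 h2
    simp [sg, ext, h2]

theorem sg_congr {x y : ℕ → Bool} {n : ℕ} (h : ∀ i < n, x i = y i) : sg x n = sg y n := by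
  unfold sg
  exact List.map_congr_left fun i hi => h i (List.mem_range.1 hi)

theorem sg_inj {x y : ℕ → Bool} {n : ℕ} (h : sg x n = sg y n) {i : ℕ} (hi : i < n) :
    x i = y i := by
  have h1 : (sg x n)[i]? = (sg y n)[i]? := by rw [h]
  simpa [sg, hi] using h1

/-- `Π⁰₁` classes, as in the frozen statement -/
def Pi (S : Set (ℕ → Bool)) : Prop :=
  ∃ T : List Bool → Bool, Computable T ∧
    S = {x : ℕ → Bool | ∀ n : ℕ, T ((List.range n).map x) = true}

theorem pi_iff {S : Set (ℕ → Bool)} : Pi S ↔ ∃ W : List Bool → Prop, REPred W ∧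
    ∀ x, x ∉ S ↔ ∃ n, W (sg x n) := by
  constructor
  · rintro ⟨T, hT, rfl⟩
    refine ⟨fun σ => T σ = false, RE.eq hT (Computable.const false), fun x => ?_⟩
    simp [sg]
  · rintro ⟨W, hW, hS⟩
    obtain ⟨q, hq, hWq⟩ := RE.re_iff.1 hW
    have hq' : Computable fun p : List Bool × ℕ => q p.1 p.2 := hq
    refine ⟨fun σ => RE.allB (fun k => RE.allB (fun t => !(q (σ.take k) t)) (σ.length + 1))
      (σ.length + 1), ?_, ?_⟩
    · refine callB ?_ (by fun_prop)
      refine callB (α := List Bool × ℕ) (p := fun z t => !(q (z.1.take z.2) t)) ?_ (by fun_prop)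
      have ht : Computable fun z : (List Bool × ℕ) × ℕ => z.1.1.take z.1.2 :=
        Primrec.list_take.to_comp.comp (by fun_prop) (by fun_prop)
      exact RE.cnot (hq'.comp (g := fun z : (List Bool × ℕ) × ℕ => (z.1.1.take z.1.2, z.2))
        (ht.pair (by fun_prop)))
    · ext x
      rw [← not_iff_not]
      rw [hS]
      simp only [Set.mem_ofPred_eq, not_forall, RE.allB_iff, Bool.not_eq_true',
        List.length_map, List.length_range]
      constructor
      · rintro ⟨k, hk⟩
        obtain ⟨t, ht⟩ := (hWq _).1 hk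
        refine ⟨max k t, k, by omega, t, by omega, ?_⟩
        have : ((List.range (max k t)).map x).take k = sg x k :=
          sg_take x (le_max_left _ _)
        rw [this, ht]; simp
      · rintro ⟨n, k, hk, t, ht, h⟩
        refine ⟨k, ?_⟩
        have h1 : ((List.range n).map x).take k = sg x k := sg_take x (by omega)
        rw [h1] at h
        exact (hWq _).2 ⟨t, by simpa using h⟩

theorem pi_inter {S T : Set (ℕ → Bool)} (hS : Pi S) (hT : Pi T) : Pi (S ∩ T) := by
  obtain ⟨W, hW, h1⟩ := pi_iff.1 hS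
  obtain ⟨W', hW', h2⟩ := pi_iff.1 hT
  refine pi_iff.2 ⟨fun σ => W σ ∨ W' σ, RE.or hW hW', fun x => ?_⟩
  rw [Set.mem_inter_iff, not_and_or, h1, h2]
  constructor
  · rintro (⟨n, h⟩ | ⟨n, h⟩)
    · exact ⟨n, Or.inl h⟩
    · exact ⟨n, Or.inr h⟩
  · rintro ⟨n, h | h⟩
    · exact Or.inl ⟨n, h⟩
    · exact Or.inr ⟨n, h⟩

theorem ctake {α : Type} [Primcodable α] {f : α → List Bool} {g : α → ℕ} (hf : Computable f)
    (hg : Computable g) : Computable fun a => (f a).take (g a) :=
  Primrec.list_take.to_comp.comp hg hf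

theorem pi_union {S T : Set (ℕ → Bool)} (hS : Pi S) (hT : Pi T) : Pi (S ∪ T) := by
  obtain ⟨W, hW, h1⟩ := pi_iff.1 hS
  obtain ⟨W', hW', h2⟩ := pi_iff.1 hT
  refine pi_iff.2 ⟨fun σ => (∃ k, W (σ.take k)) ∧ ∃ k, W' (σ.take k), RE.and ?_ ?_, fun x => ?_⟩
  · exact RE.exN (p := fun (σ : List Bool) k => W (σ.take k))
      (RE.comp hW (ctake (by fun_prop) (by fun_prop)))
  · exact RE.exN (p := fun (σ : List Bool) k => W' (σ.take k))
      (RE.comp hW' (ctake (by fun_prop) (by fun_prop)))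
  rw [Set.mem_union, not_or, h1, h2]
  constructor
  · rintro ⟨⟨n, h⟩, ⟨m, h'⟩⟩
    refine ⟨max n m, ⟨n, ?_⟩, ⟨m, ?_⟩⟩
    · rw [sg_take x (le_max_left _ _)]; exact h
    · rw [sg_take x (le_max_right _ _)]; exact h'
  · rintro ⟨n, ⟨k, h⟩, ⟨m, h'⟩⟩
    rw [sg_take'] at h h'
    exact ⟨⟨_, h⟩, ⟨_, h'⟩⟩

theorem pi_empty : Pi ∅ :=
  pi_iff.2 ⟨fun _ => True, RE.const True, fun x => by simp⟩

theorem pi_univ : Pi Set.univ :=
  pi_iff.2 ⟨fun _ => False, RE.const False, fun x => by simp⟩

/-! ### Compactness -/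

theorem isOpen_cyl (q : List Bool → Prop) (k : ℕ) : IsOpen {x : ℕ → Bool | q (sg x k)} := by
  have h1 : Continuous fun x : ℕ → Bool => (fun i : Fin k => x i) :=
    continuous_pi fun i => continuous_apply _
  have h2 : {x : ℕ → Bool | q (sg x k)} =
      (fun x : ℕ → Bool => (fun i : Fin k => x i)) ⁻¹' {f | q (List.ofFn f)} := by
    ext x
    have : sg x k = List.ofFn (fun i : Fin k => x i) := by
      apply List.ext_getElem
      · simp [sg]
      · intro i h1 h2
        simp [sg]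
    simp [this]
  rw [h2]
  exact (isOpen_discrete _).preimage h1

/-- the fan theorem -/
theorem fan (q : List Bool → Prop) (h : ∀ x : ℕ → Bool, ∃ n, q (sg x n)) :
    ∃ N, ∀ x : ℕ → Bool, ∃ n ≤ N, q (sg x n) := by
  have hc : IsCompact (Set.univ : Set (ℕ → Bool)) := isCompact_univ
  obtain ⟨N, hN⟩ := hc.elim_directed_cover (fun N : ℕ => {x : ℕ → Bool | ∃ n ≤ N, q (sg x n)})
    (by
      intro N
      have : {x : ℕ → Bool | ∃ n ≤ N, q (sg x n)} = ⋃ n ∈ {n | n ≤ N}, {x | q (sg x n)} := by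
        ext x; simp
      rw [this]
      exact isOpen_biUnion fun n _ => isOpen_cyl q n)
    (by
      intro x _
      obtain ⟨n, hn⟩ := h x
      exact Set.mem_iUnion.2 ⟨n, n, le_rfl, hn⟩)
    (directed_of_isDirected_le fun a b hab x hx => by
      obtain ⟨n, h1, h2⟩ := hx
      exact ⟨n, h1.trans hab, h2⟩)
  exact ⟨N, fun x => hN (Set.mem_univ x)⟩

/-! ### The compact case -/

/-- `σ` is known to be outside -/
def out (T : List Bool → Bool) (σ : List Bool) : Bool :=
  RE.exB (fun k => !(T (σ.take k))) (σ.length + 1)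

theorem out_comp {α : Type} [Primcodable α] {T : List Bool → Bool} (hT : Computable T)
    {f : α → List Bool} (hf : Computable f) : Computable fun a => out T (f a) := by
  refine RE.computable_exB (q := fun a k => !(T ((f a).take k))) ?_ (by fun_prop)
  exact RE.cnot (hT.comp (ctake (by fun_prop) (by fun_prop)))

theorem out_iff {T : List Bool → Bool} {x : ℕ → Bool} {n : ℕ} :
    out T (sg x n) = true ↔ ∃ k ≤ n, T (sg x k) = false := by
  unfold out
  rw [RE.exB_iff, sg_length]
  constructor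
  · rintro ⟨k, hk, h⟩
    rw [sg_take x (by omega)] at h
    exact ⟨k, by omega, by simpa using h⟩
  · rintro ⟨k, hk, h⟩
    exact ⟨k, by omega, by rw [sg_take x hk, h]; rfl⟩

theorem out_mono {T : List Bool → Bool} {x : ℕ → Bool} {n m : ℕ} (h : n ≤ m)
    (ho : out T (sg x n) = true) : out T (sg x m) = true := by
  rw [out_iff] at ho ⊢
  obtain ⟨k, h1, h2⟩ := ho
  exact ⟨k, h1.trans h, h2⟩

/-- the type of `Π⁰₁` supersets of `P` -/
abbrev SP (P : Set (ℕ → Bool)) : Type :=
  {S : Set (ℕ → Bool) //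
    (∃ T : List Bool → Bool, Computable T ∧
      S = {x : ℕ → Bool | ∀ n : ℕ, T ((List.range n).map x) = true}) ∧ P ⊆ S}

theorem psi_compact : Psi (SP ∅) := by
  rintro ⟨X, ⟨TX, hTX, hX⟩, hX0⟩ ⟨Y, ⟨TY, hTY, hY⟩, hY0⟩ hXY hno
  have hXY' : X ⊆ Y := hXY
  have hXm : ∀ x, x ∉ X ↔ ∃ n, out TX (sg x n) = true := by
    intro x
    rw [hX]
    simp only [Set.mem_ofPred_eq, not_forall, Bool.not_eq_true]
    constructor
    · rintro ⟨n, h⟩; exact ⟨n, out_iff.2 ⟨n, le_rfl, h⟩⟩
    · rintro ⟨n, h⟩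
      obtain ⟨k, _, h⟩ := out_iff.1 h
      exact ⟨k, h⟩
  have hYm : ∀ x, x ∉ Y ↔ ∃ n, out TY (sg x n) = true := by
    intro x
    rw [hY]
    simp only [Set.mem_ofPred_eq, not_forall, Bool.not_eq_true]
    constructor
    · rintro ⟨n, h⟩; exact ⟨n, out_iff.2 ⟨n, le_rfl, h⟩⟩
    · rintro ⟨n, h⟩
      obtain ⟨k, _, h⟩ := out_iff.1 h
      exact ⟨k, h⟩
  -- the next stage
  let r : ℕ → ℕ → Prop := fun n s => n < s ∧ ∃ σ : List Bool, σ.length = s ∧
    out TX σ = true ∧ out TY σ = true ∧ out TX (σ.take n) = false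
  have hr : REPred fun z : ℕ × ℕ => r z.1 z.2 := by
    refine RE.and (RE.lt (by fun_prop) (by fun_prop)) (RE.ex (RE.and (RE.eq (by fun_prop)
      (by fun_prop)) (RE.and (RE.eq (out_comp hTX (by fun_prop)) (by fun_prop))
      (RE.and (RE.eq (out_comp hTY (by fun_prop)) (by fun_prop))
      (RE.eq (out_comp hTX (ctake (by fun_prop) (by fun_prop))) (by fun_prop))))))
  have hex : ∀ n, ∃ s, r n s := by
    intro n
    by_contra hcon
    apply hno
    have hC : Pi {x : ℕ → Bool | out TX (sg x n) = false} := by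
      refine pi_iff.2 ⟨fun σ => σ.length = n ∧ out TX σ = true, RE.and (RE.eq (by fun_prop)
        (by fun_prop)) (RE.eq (out_comp hTX (by fun_prop)) (by fun_prop)), fun x => ?_⟩
      constructor
      · intro h
        refine ⟨n, sg_length x n, ?_⟩
        simpa using h
      · rintro ⟨m, h1, h2⟩
        rw [sg_length] at h1
        rw [h1] at h2
        simpa using h2
    have hC' : Pi {x : ℕ → Bool | out TX (sg x n) = true} := by
      refine pi_iff.2 ⟨fun σ => σ.length = n ∧ out TX σ = false, RE.and (RE.eq (by fun_prop)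
        (by fun_prop)) (RE.eq (out_comp hTX (by fun_prop)) (by fun_prop)), fun x => ?_⟩
      constructor
      · intro h
        refine ⟨n, sg_length x n, ?_⟩
        simpa using h
      · rintro ⟨m, h1, h2⟩
        rw [sg_length] at h1
        rw [h1] at h2
        simpa using h2
    refine ⟨⟨_, hC, Set.empty_subset _⟩, ⟨⟨_, hC', Set.empty_subset _⟩, ?_, ?_⟩, ?_, ?_⟩
    · intro D h1 h2 E x hx
      have h3 := h1 hx
      have h4 := h2 hx
      simp only [Set.mem_ofPred_eq] at h3 h4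
      rw [h3] at h4
      exact absurd h4 (by simp)
    · intro D h1 h2 E x _
      rcases h : out TX (sg x n) with _ | _
      · exact h1 h
      · exact h2 h
    · intro x hx
      show out TX (sg x n) = false
      by_contra h
      rw [Bool.not_eq_false] at h
      exact (hXm x).2 ⟨n, h⟩ hx
    · intro x hx
      by_contra hxY
      obtain ⟨m, hm⟩ := (hYm x).1 hxY
      obtain ⟨m', hm'⟩ := (hXm x).1 (fun h => hxY (hXY' h))
      apply hcon
      refine ⟨max (n + 1) (max m m'), ?_, sg x (max (n + 1) (max m m')), sg_length _ _,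
        out_mono ?_ hm', out_mono ?_ hm, ?_⟩
      · exact lt_of_lt_of_le (Nat.lt_succ_self n) (le_max_left _ _)
      · exact (le_max_right _ _).trans (le_max_right _ _)
      · exact (le_max_left _ _).trans (le_max_right _ _)
      · rw [sg_take x ((Nat.le_succ n).trans (le_max_left _ _))]
        exact hx
  obtain ⟨f0, hf0, hdom, hval⟩ := RE.uniformize hr
  let f : ℕ → ℕ := fun n => (f0 n).get ((hdom n).2 (hex n))
  have hf : Computable f := hf0.of_eq_tot fun n => Part.get_mem _
  have hfr : ∀ n, r n (f n) := fun n => hval n _ (Part.get_mem _)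
  let N : ℕ → ℕ := fun k => Nat.rec (motive := fun _ => ℕ) 0 (fun _ n => f n) k
  have hN : Computable N := by
    have h : Computable₂ fun (_ : ℕ) (q : ℕ × ℕ) => f q.2 :=
      hf.comp (g := fun z : ℕ × (ℕ × ℕ) => z.2.2) (by fun_prop)
    exact (Computable.nat_rec Computable.id (Computable.const 0) h).of_eq fun n => rfl
  have hN0 : N 0 = 0 := rfl
  have hNs : ∀ k, N (k + 1) = f (N k) := fun k => rfl
  have hNlt : ∀ k, N k < N (k + 1) := fun k => (hfr (N k)).1
  have hNm : StrictMono N := strictMono_nat_of_lt_succ hNlt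
  have hbase : out TX [] = false := by
    obtain ⟨_, σ, _, _, _, h⟩ := hfr 0
    simpa using h
  have hNN : Computable fun z : List Bool × ℕ => N z.2 :=
    hN.comp (g := fun z : List Bool × ℕ => z.2) (by fun_prop)
  have hNN' : Computable fun z : List Bool × ℕ => N (z.2 + 1) :=
    hN.comp (g := fun z : List Bool × ℕ => z.2 + 1) (by fun_prop)
  -- the two pieces
  let Wx : List Bool → Prop := fun σ => ∃ k, σ.length = N (k + 1) ∧ out TX σ = true ∧
    out TY σ = true ∧ out TX (σ.take (N k)) = false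
  let Wz : List Bool → Prop := fun σ => ∃ k, σ.length = N (k + 1) ∧ out TX σ = true ∧
    out TY σ = false ∧ out TX (σ.take (N k)) = false
  have hWx : REPred Wx := by
    refine RE.exN (p := fun (σ : List Bool) k => σ.length = N (k + 1) ∧ out TX σ = true ∧
      out TY σ = true ∧ out TX (σ.take (N k)) = false) (RE.and (RE.eq (by fun_prop) hNN')
      (RE.and (RE.eq (out_comp hTX (by fun_prop)) (by fun_prop))
      (RE.and (RE.eq (out_comp hTY (by fun_prop)) (by fun_prop))
      (RE.eq (out_comp hTX (ctake (by fun_prop) hNN)) (by fun_prop)))))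
  have hWz : REPred Wz := by
    refine RE.exN (p := fun (σ : List Bool) k => σ.length = N (k + 1) ∧ out TX σ = true ∧
      out TY σ = false ∧ out TX (σ.take (N k)) = false) (RE.and (RE.eq (by fun_prop) hNN')
      (RE.and (RE.eq (out_comp hTX (by fun_prop)) (by fun_prop))
      (RE.and (RE.eq (out_comp hTY (by fun_prop)) (by fun_prop))
      (RE.eq (out_comp hTX (ctake (by fun_prop) hNN)) (by fun_prop)))))
  have hxm : ∀ x, (∃ n, Wx (sg x n)) ↔ ∃ k, out TX (sg x (N (k + 1))) = true ∧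
      out TY (sg x (N (k + 1))) = true ∧ out TX (sg x (N k)) = false := by
    intro x
    constructor
    · rintro ⟨n, k, h1, h2, h3, h4⟩
      rw [sg_length] at h1
      rw [h1] at h2 h3 h4
      rw [sg_take x (hNlt k).le] at h4
      exact ⟨k, h2, h3, h4⟩
    · rintro ⟨k, h2, h3, h4⟩
      exact ⟨N (k + 1), k, sg_length _ _, h2, h3, by rw [sg_take x (hNlt k).le]; exact h4⟩
  have hzm : ∀ x, (∃ n, Wz (sg x n)) ↔ ∃ k, out TX (sg x (N (k + 1))) = true ∧
      out TY (sg x (N (k + 1))) = false ∧ out TX (sg x (N k)) = false := by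
    intro x
    constructor
    · rintro ⟨n, k, h1, h2, h3, h4⟩
      rw [sg_length] at h1
      rw [h1] at h2 h3 h4
      rw [sg_take x (hNlt k).le] at h4
      exact ⟨k, h2, h3, h4⟩
    · rintro ⟨k, h2, h3, h4⟩
      exact ⟨N (k + 1), k, sg_length _ _, h2, h3, by rw [sg_take x (hNlt k).le]; exact h4⟩
  have hZ : Pi {x | ¬ ∃ n, Wx (sg x n)} := pi_iff.2 ⟨Wx, hWx, fun x => by simp⟩
  have hZ' : Pi {x | ¬ ∃ n, Wz (sg x n)} := pi_iff.2 ⟨Wz, hWz, fun x => by simp⟩
  refine ⟨⟨_, hZ, Set.empty_subset _⟩, ⟨_, hZ', Set.empty_subset _⟩, ?_, ?_, ?_, ?_, ?_⟩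
  · intro x hx hn
    obtain ⟨k, _, h, _⟩ := (hxm x).1 hn
    exact (hYm x).2 ⟨_, h⟩ hx
  · intro x hx hn
    obtain ⟨k, h, _, _⟩ := (hzm x).1 hn
    exact (hXm x).2 ⟨_, h⟩ hx
  · intro D h1 h2 x hx
    have h3 : ¬ ∃ n, Wx (sg x n) := h1 hx
    have h4 : ¬ ∃ n, Wz (sg x n) := h2 hx
    show x ∈ X
    by_contra hxX
    obtain ⟨n, hn⟩ := (hXm x).1 hxX
    have hexk : ∃ k, out TX (sg x (N k)) = true :=
      ⟨n, out_mono (hNm.id_le n) hn⟩
    classical
    have h5 := Nat.find_spec hexk
    rcases h6 : Nat.find hexk with _ | k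
    · rw [h6] at h5
      have : out TX [] = true := h5
      rw [hbase] at this
      exact absurd this (by simp)
    · have h7 := Nat.find_min hexk (m := k) (by omega)
      rw [h6] at h5
      rw [Bool.not_eq_true] at h7
      rcases h8 : out TY (sg x (N (k + 1))) with _ | _
      · exact h4 ((hzm x).2 ⟨k, h5, h8, h7⟩)
      · exact h3 ((hxm x).2 ⟨k, h5, h8, h7⟩)
  · intro D h1 h2 E x _
    by_cases h3 : ∃ n, Wx (sg x n)
    · refine h2 (a := x) ?_
      intro h4
      obtain ⟨k, a1, a2, a3⟩ := (hxm x).1 h3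
      obtain ⟨k', b1, b2, b3⟩ := (hzm x).1 h4
      rcases lt_trichotomy k k' with h | h | h
      · have := out_mono (hNm.monotone (show k + 1 ≤ k' by omega)) a1
        rw [this] at b3; exact absurd b3 (by simp)
      · subst h
        rw [a2] at b2; exact absurd b2 (by simp)
      · have := out_mono (hNm.monotone (show k' + 1 ≤ k by omega)) b1
        rw [this] at a3; exact absurd a3 (by simp)
    · exact h1 (a := x) h3
  · rintro ⟨⟨C, ⟨TC, hTC, hC⟩, hC0⟩, h1, h2⟩
    -- `C` is the complement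
    have hCc : ∀ x, x ∈ C ↔ ∃ n, Wx (sg x n) := by
      intro x
      constructor
      · intro hx
        by_contra hn
        have hp : Pi ({x | ¬ ∃ n, Wx (sg x n)} ∩ C) := pi_inter hZ ⟨TC, hTC, hC⟩
        have := h1 ⟨_, hp, Set.empty_subset _⟩ Set.inter_subset_left Set.inter_subset_right
          ⟨∅, pi_empty, Set.empty_subset _⟩
        exact this (a := x) ⟨hn, hx⟩
      · intro hn
        have hp : Pi ({x | ¬ ∃ n, Wx (sg x n)} ∪ C) := pi_union hZ ⟨TC, hTC, hC⟩
        have := h2 ⟨_, hp, Set.empty_subset _⟩ Set.subset_union_left Set.subset_union_right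
          ⟨Set.univ, pi_univ, Set.empty_subset _⟩
        rcases this (Set.mem_univ x) with h | h
        · exact absurd hn h
        · exact h
    obtain ⟨M, hM⟩ := fan (fun σ => TC σ = false ∨ ∃ k, N k ≤ σ.length ∧
        out TX (σ.take (N k)) = true) (by
      intro x
      by_cases hx : x ∈ C
      · obtain ⟨k, h3, _, _⟩ := (hxm x).1 ((hCc x).1 hx)
        refine ⟨N (k + 1), Or.inr ⟨k + 1, (sg_length _ _).ge, ?_⟩⟩
        rw [sg_take x le_rfl]; exact h3
      · rw [hC] at hx
        simp only [Set.mem_ofPred_eq, not_forall, Bool.not_eq_true] at hx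
        obtain ⟨n, hn⟩ := hx
        exact ⟨n, Or.inl hn⟩)
    obtain ⟨_, σ, h3, h4, h5, h6⟩ := hfr (N M)
    have h7 : σ.length = N (M + 1) := h3
    have h8 : sg (ext σ) (N (M + 1)) = σ := by rw [← h7]; exact sg_ext σ
    have h9 : out TX (sg (ext σ) (N M)) = false := by
      rw [← sg_take (ext σ) (hNlt M).le, h8]; exact h6
    have h10 : ext σ ∈ C := (hCc _).2 ((hxm _).2 ⟨M, by rw [h8]; exact h4, by rw [h8]; exact h5,
      h9⟩)
    obtain ⟨n, hn, h11 | ⟨k, h11, h12⟩⟩ := hM (ext σ)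
    · rw [hC] at h10
      have := h10 n
      change TC (sg (ext σ) n) = true at this
      rw [this] at h11
      exact absurd h11 (by simp)
    · rw [sg_length] at h11
      rw [sg_take _ h11] at h12
      have h13 : N k ≤ N M := by
        have : n ≤ M := hn
        exact h11.trans (this.trans (hNm.id_le M))
      rw [out_mono h13 h12] at h9
      exact absurd h9 (by simp)

end Pool.Agent.TH744.Sm
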